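import Pool.Agent.H18.HX.Targets
import Pool.Agent.H12.ZD.Grow
import Pool.Agent.H12.ZD.Residue

/-!
# Row RED of the board `hx_modules`: reduction modulo a large prime preserves indivisibility
-/

open MvPolynomial
open Pool.Agent.H12.ZD (pmap v O Res DenseOrbit NoInv)
open Pool.Agent.H18.HIT Pool.Agent.H18.HX

namespace Pool.Agent.H78.HX

/-- the remainder -/
noncomputable def rm {R : Type} [CommRing R] {N : ℕ} (P w : Po (N + 1) R) :
    Polynomial (Po N R) := finSuccEquiv R N w %ₘ finSuccEquiv R N P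

theorem dvd_iff_rm {R : Type} [CommRing R] {N : ℕ} (P w : Po (N + 1) R) (hP : Mny P) :
    P ∣ w ↔ rm P w = 0 := by
  unfold rm
  rw [Polynomial.modByMonic_eq_zero_iff_dvd hP]
  exact (map_dvd_iff (finSuccEquiv R N)).symm

theorem rm_map {R S : Type} [CommRing R] [CommRing S] (φ : R →+* S) {N : ℕ} (P w : Po (N + 1) R)
    (hP : Mny P) : rm (map φ P) (map φ w) = (rm P w).map (map φ) := by
  unfold rm
  rw [Pool.Agent.H12.ZD.finSuccEquiv_map, Pool.Agent.H12.ZD.finSuccEquiv_map,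
    Polynomial.map_modByMonic _ hP]

theorem Mny_map {R S : Type} [CommRing R] [CommRing S] (φ : R →+* S) {N : ℕ} (P : Po (N + 1) R)
    (hP : Mny P) : Mny (map φ P) := by
  unfold Mny
  rw [Pool.Agent.H12.ZD.finSuccEquiv_map]
  exact hP.map _

theorem pf_RED : T_RED := by
  intro N P w hP hw
  rw [dvd_iff_rm P w hP] at hw
  obtain ⟨i, hi⟩ : ∃ i, (rm P w).coeff i ≠ 0 := by
    by_contra h
    push Not at h
    apply hw
    ext1 i
    rw [h i, Polynomial.coeff_zero]
  obtain ⟨a, ha⟩ : ∃ a, ((rm P w).coeff i).coeff a ≠ 0 := by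
    by_contra h
    push Not at h
    apply hi
    ext1 a
    rw [h a, coeff_zero]
  obtain ⟨M, hM⟩ := Pool.Agent.H12.ZD.exists_bound_eq ha
  refine ⟨M, fun p hp P₀ w₀ hP₀ hP1 hw1 hdvd => ?_⟩
  rw [dvd_iff_rm _ _ (Mny_map _ P₀ hP₀), rm_map _ P₀ w₀ hP₀] at hdvd
  have h1 : rm P w = (rm P₀ w₀).map (map (O p).subtype) := by
    rw [← rm_map _ P₀ w₀ hP₀, hP1, hw1]
  have h2 : ((rm P w).coeff i).coeff a = ((((rm P₀ w₀).coeff i).coeff a : O p) : Qb) := by
    rw [h1, Polynomial.coeff_map, coeff_map]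
    rfl
  have h3 : IsLocalRing.residue (O p) (((rm P₀ w₀).coeff i).coeff a) = 0 := by
    have h4 := congrArg (fun q => (q.coeff i).coeff a) hdvd
    simp only [Polynomial.coeff_map, coeff_map, Polynomial.coeff_zero, coeff_zero] at h4
    exact h4
  rw [Pool.Agent.H12.ZD.residue_eq_zero] at h3
  have h5 := hM p hp
  rw [h2] at h5
  exact absurd h5 (ne_of_lt h3)

end Pool.Agent.H78.HX
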