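import Pool.Agent.H18.HX.Targets

/-!
# Row CNI of the board `hx_modules`: the number of preimages under an iterate
-/

open MvPolynomial
open Pool.Agent.H12.ZD (pmap v O Res DenseOrbit NoInv)
open Pool.Agent.H18.HIT Pool.Agent.H18.HX

namespace Pool.Agent.H78.HX

/-- iterates are dominant self-maps -/
theorem slf_it {L : ℕ} {k : Type} [Field k] {I : Ideal (Po L k)} {f : Tup L k} (hf : Slf I f)
    (n : ℕ) : Slf I (it f n) := by
  induction n with
  | zero =>
    refine ⟨fun c hc => ?_, fun c hc => ?_⟩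
    · rw [it_zero, aeval_X_left_apply]
      exact hc
    · rw [it_zero, aeval_X_left_apply] at hc
      exact hc
  | succ n ih =>
    refine ⟨fun c hc => ?_, fun c hc => ?_⟩
    · rw [aeval_it_succ']
      exact hf.inv _ (ih.inv c hc)
    · rw [aeval_it_succ'] at hc
      exact ih.inj _ (hf.inj _ hc)

theorem pf_CNI (hELI : T_ELI) : T_CNI := by
  classical
  intro L k _ _ I hI f e n hf hc
  induction n with
  | zero =>
    refine ⟨1, ?_, fun y hy _ => ⟨{y}, by simp, ?_⟩⟩
    · intro h
      exact hI.ne_top ((Ideal.eq_top_iff_one I).2 h)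
    · intro x hx
      rw [Finset.mem_singleton] at hx
      rw [it_zero, pmap_X, hx]
      exact ⟨hy, rfl⟩
  | succ n ih =>
    obtain ⟨c, hc0, hcov⟩ := hc
    obtain ⟨cn, hcn0, hcovn⟩ := ih
    obtain ⟨c', A, hc'0, hq⟩ := hELI L k I (it f n) (slf_it hf n) c hc0
    refine ⟨cn * c', ?_, fun y hyI hy => ?_⟩
    · intro h
      rcases hI.mem_or_mem h with h | h
      · exact hcn0 h
      · exact hc'0 h
    rw [map_mul] at hy
    obtain ⟨S, hScard, hS⟩ := hcovn y hyI (left_ne_zero_of_mul hy)
    have hw : ∀ w ∈ S, eval w c ≠ 0 := by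
      intro w hw1
      have h1 : eval w (aeval (it f n) c') = eval y c' := by
        rw [eval_aeval, (hS w hw1).2]
      have h0 := (hS w hw1).1 _ hq
      rw [map_sub, map_mul, sub_eq_zero] at h0
      have h2 : eval w c * eval w A ≠ 0 := by
        rw [← h0, h1]
        exact right_ne_zero_of_mul hy
      exact left_ne_zero_of_mul h2
    have hT : ∀ w : Fin L → k, ∃ T : Finset (Fin L → k), w ∈ S →
        T.card = e ∧ ∀ x ∈ T, Zer I x ∧ pmap f x = w := by
      intro w
      by_cases h : w ∈ S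
      · obtain ⟨T, hT1, hT2⟩ := hcov w (hS w h).1 (hw w h)
        exact ⟨T, fun _ => ⟨hT1, hT2⟩⟩
      · exact ⟨∅, fun h' => absurd h' h⟩
    choose T hT using hT
    refine ⟨S.biUnion T, ?_, ?_⟩
    · rw [Finset.card_biUnion]
      · rw [Finset.sum_congr rfl (fun w hw1 => (hT w hw1).1), Finset.sum_const, hScard,
          smul_eq_mul, pow_succ]
      · intro w hw1 w' hw1' hne
        show Disjoint (T w) (T w')
        rw [Finset.disjoint_left]
        intro x hx hx'
        exact hne (((hT w hw1).2 x hx).2.symm.trans ((hT w' hw1').2 x hx').2)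
    · intro x hx
      rw [Finset.mem_biUnion] at hx
      obtain ⟨w, hw1, hx1⟩ := hx
      refine ⟨((hT w hw1).2 x hx1).1, ?_⟩
      rw [it_succ', pmap_comp, ((hT w hw1).2 x hx1).2, (hS w hw1).2]

end Pool.Agent.H78.HX
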